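import Pool.Agent.Helper10.CYC.Blocks
import Pool.Agent.Helper73.SNC.Val

/-!
# S10221, even k, TRACK B: frozen statements (helper95; merges: helper83's T3-lambda)

`k = 2 r`, `f = G^2` over a field `K` of characteristic 2 (algebraically closed),
`D` (the gap in characteristic 0) with `2 ≤ D < r`, `m = r - D`, `b = r + D`.
-/

set_option autoImplicit false

namespace Pool.Agent.Helper95.CYCB

open Finset Polynomial Pool.Agent.Helper10.CYC

/-! ## Definitions -/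

/-- Labels `0, ..., k-2, k-1+i`. -/
def Lb (k i : ℕ) (t : Fin k) : ℕ := if (t : ℕ) + 1 = k then (t : ℕ) + i else (t : ℕ)

/-- The exponents `label + u` are `[0,k)` with one element `p` replaced by `p + b`. -/
def HookL (k b i : ℕ) (u : Fin k → ℕ) (s : Equiv.Perm (Fin k)) : Prop :=
  ∃ p, p < k ∧ k ≤ p + b ∧
    univ.image (fun j => Lb k i (s j) + u j) = insert (p + b) ((range k).erase p)

open Classical in
/-- The relation with label set `[0,k-1) ∪ {k-1+i}` in characteristic 2. -/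
def RelL {R : Type} [CommRing R] {k : ℕ} (f : R[X]) (b i : ℕ) (u : Fin k → ℕ) : Prop :=
  ∀ g : Fin k → R[X],
    ∑ s ∈ univ.filter (fun s : Equiv.Perm (Fin k) => HookL k b i u s),
      dd f (fun j => g j * X ^ (Lb k i (s j))) = 0

/-- All relations with at least `r` support slots. -/
def RelsL {R : Type} [CommRing R] (r D : ℕ) (f : R[X]) : Prop :=
  ∀ (i : ℕ) (u : Fin (r + r) → ℕ), ∑ j, u j + i = r + D → r ≤ (supp u).card →
    RelL f (r + D) i u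

/-- Two-block sum with exponent sets `K` (block of `a`), `L` (block of `b`). -/
noncomputable def PSE {R : Type} [CommRing R] {r : ℕ} (f : R[X]) (a b : Fin r → R[X])
    (K L : Finset ℕ) : R :=
  ∑ σ : Fin r ≃ K, ∑ τ : Fin r ≃ L,
    dd f (Fin.append (fun i => a i * X ^ ((σ i : ℕ))) (fun j => b j * X ^ ((τ j : ℕ))))

/-- The alternant of the exponent set `K` modulo `Y` (degree `r`); `0` if `K` does not have `r`
elements. -/
noncomputable def al {R : Type} [CommRing R] (r : ℕ) (Y : R[X]) (K : Finset ℕ) : R :=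
  if h : K.card = r then dd Y (fun i : Fin r => (X : R[X]) ^ (K.orderEmbOfFin h i : ℕ)) else 0

/-- The two-block property: a relation between two-block sums for `f` gives a relation between
products of alternants for `Y`. -/
def TB {R Q : Type} [CommRing R] [CommRing Q] (r : ℕ) (f : R[X]) (Y : Q[X]) : Prop :=
  ∀ (s : Finset ℕ) (K L : ℕ → Finset ℕ), (∀ c ∈ s, (K c).card = r ∧ (L c).card = r) →
    (∀ a b : Fin r → R[X], ∑ c ∈ s, PSE f a b (K c) (L c) = 0) →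
    ∑ c ∈ s, al r Y (K c) * al r Y (L c) = 0

open Classical in
/-- Sums `∑ i_v` with all `choose (p_v) (i_v)` odd, `p_v` the root multiplicities of `G`
(= subset sums of the binary blocks of `G`). -/
def Sig {K : Type} [Field K] (G : K[X]) : Set ℕ :=
  {n | ∃ i : K → ℕ, (∀ v, Odd ((G.rootMultiplicity v).choose (i v))) ∧
    ∑ v ∈ G.roots.toFinset, i v = n}

/-- Complete symmetric function `h_n` of the roots of the monic polynomial `F`. -/
noncomputable def hh {R : Type} [CommRing R] (F : R[X]) (n : ℕ) : R :=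
  PowerSeries.coeff n (PowerSeries.invOfUnit (F.reverse : PowerSeries R) 1)

/-! ### Exponent sets of the relation `(N_a)` -/

/-- First kind, block `S` (exponents shifted by `a`). -/
def kN1 (r D m a p : ℕ) : Finset ℕ :=
  insert (m + p) (Ico (m + a) (m + p + a) ∪ Ico (m + p + D + a) (2 * r - 1 + a))

/-- First kind, block `J`. -/
def lN1 (r D m p : ℕ) : Finset ℕ := insert (2 * r) (range m ∪ Ioo (m + p) (m + p + D))

/-- Second kind, block `S` (exponents shifted by `a`). -/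
def kN2 (r D m a p : ℕ) : Finset ℕ :=
  insert (m + p) (insert (2 * r + a)
    (Ico (m + 1 + a) (m + p + a) ∪ Ico (m + p + D + a) (2 * r - 1 + a)))

/-- Second kind, block `J`. -/
def lN2 (D m p : ℕ) : Finset ℕ := range (m + 1) ∪ Ioo (m + p) (m + p + D)

/-! ## B0. T3 with a general first row -/

/-- B0-T3L. -/
def ST_T3L : Prop := ∀ (k b i : ℕ) (u : Fin k → ℕ), 0 < b → b ≤ k → ∑ j, u j + i = b →
  ∃ ε : Equiv.Perm (Fin k) → ℤˣ, ∀ (F : Type) [Field F] (x y : Fin k → F),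
    Function.Injective y →
    (∀ σ : Equiv.Perm (Fin k), (Matrix.vandermonde (fun j => x j * y (σ j))).det = 0) →
    (∀ j, (supp u).card ≤ j → j < b → Pool.Agent.Helper10.CYC.es y j = 0) →
    Pool.Agent.Helper10.CYC.es y b *
      (∑ s : Equiv.Perm (Fin k), open Classical in if HookL k b i u s then
        (((ε s : ℤˣ) : ℤ) : F) * ∏ j, x j ^ (Lb k i (s j)) else 0) = 0

/-- B0-TRL: transfer to a quotient of characteristic 2. -/
def ST_TRL : Prop := ∀ (R S : Type) [CommRing R] [IsDomain R] [CommRing S] [CharP S 2]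
  (φ : R →+* S) (_ : Function.Surjective φ) (k b i : ℕ) (u : Fin k → ℕ)
  (ε : Equiv.Perm (Fin k) → ℤˣ) (x : Fin k → R) (_ : Function.Injective x)
  (_ : ∀ σ : Equiv.Perm (Fin k), (∑ s : Equiv.Perm (Fin k), open Classical in
    if HookL k b i u s then (((ε s : ℤˣ) : ℤ) : R) * ∏ j, x (σ j) ^ (Lb k i (s j)) else 0) = 0),
    RelL (∏ j, (X - C (φ (x j)))) b i u

/-! ## B1. Label lemmas (one special slot, linear chains) -/

/-- B1-LH. `λ = (j-1)`: `u = 1` on `S`, `D-j+1` on one slot `z` of `J`, `z` gets `X^1`. -/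
def ST_LH : Prop := ∀ (R : Type) [CommRing R] [CharP R 2] (r D : ℕ) (f : R[X]), D < r →
  RelsL r D f → ∀ j, 1 ≤ j → j < D → ∀ a b : Fin r → R[X],
  PSE f a b (Ico (r - 1) (2 * r - 1)) (insert (2 * r - 1 + j) (range (r - 1))) = 0

/-- B1-LD. `λ = (D)`: `u = 1` on `S`. -/
def ST_LD : Prop := ∀ (R : Type) [CommRing R] [CharP R 2] (r D : ℕ) (f : R[X]), 1 ≤ D → D < r →
  RelsL r D f → ∀ a b : Fin r → R[X],
  PSE f a b (Ico (r - 1) (2 * r - 1)) (insert (2 * r - 1 + D) (range (r - 1)))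
    + PSE f a b (insert (2 * r - 1 + D) (Ico r (2 * r - 1))) (range r) = 0

/-- B1-LN. `λ = (1)`: `u = D` on one slot `z` of `S`, `u = 1` on the other slots of `S`;
all slots of `S` except `z` get `X^a`. -/
def ST_LN : Prop := ∀ (R : Type) [CommRing R] [CharP R 2] (r D m a : ℕ) (f : R[X]), m + D = r →
  2 ≤ D → 1 ≤ a → a ≤ m + 1 → 1 ≤ m → RelsL r D f → ∀ α β : Fin r → R[X],
  ∑ p ∈ range a, PSE f α β (kN1 r D m a p) (lN1 r D m p)
    + ∑ p ∈ Icc 1 a, PSE f α β (kN2 r D m a p) (lN2 D m p)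
    + (if a = 1 then PSE f α β (Ico (r + 1) (2 * r + 1)) (range r) else 0) = 0

/-! ## B2. The model -/

/-- B2-MODEL.  `Q` = (span of the norms `∏ ν(x_i)`) modulo the ideal killed by `top`. -/
def ST_MODEL : Prop := ∀ (K : Type) [Field K] [CharP K 2] [IsAlgClosed K] (r : ℕ) (G : K[X])
  (_ : G.Monic) (_ : G.natDegree = r), ∃ (Q : Type) (_ : CommRing Q) (_ : Nontrivial Q)
  (_ : CharP Q 2) (_ : Algebra K Q) (pl : Q →ₐ[K] K) (Y : Q[X]),
    Y.Monic ∧ Y.natDegree = r ∧ Y.map (pl : Q →+* K) = G ∧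
    Y ^ 2 = (G ^ 2).map (algebraMap K Q) ∧
    (∀ x : Q, x ^ 2 = algebraMap K Q ((pl x) ^ 2)) ∧
    TB r (G ^ 2) Y ∧
    (∀ c : ℕ → K, ∑ j ∈ range (r + 1), algebraMap K Q (c j) * Y.coeff j = 0 →
      ∀ n ∈ Sig G, c n = 0) ∧
    (∀ j, j ≤ r → j ∉ Sig G → Y.coeff j = 0)

/-! ## B3. Alternants (characteristic 2) -/

/-- B3-SHIFT. -/
def ST_SHIFT : Prop := ∀ (R : Type) [CommRing R] [CharP R 2] (r : ℕ) (Y : R[X]) (_ : Y.Monic)
  (_ : Y.natDegree = r) (K : Finset ℕ) (n : ℕ),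
  al r Y (K.image (· + n)) = (Y.coeff 0) ^ n * al r Y K

/-- B3-COEF: replacing one exponent of `[0,r)`. -/
def ST_COEF : Prop := ∀ (R : Type) [CommRing R] [CharP R 2] (r : ℕ) (Y : R[X]) (_ : Y.Monic)
  (_ : Y.natDegree = r),
  (∀ j x, j < r → r ≤ x → al r Y (insert x ((range r).erase j)) = (X ^ x %ₘ Y).coeff j) ∧
  al r Y (range r) = 1 ∧ (∀ j, j ≤ r → al r Y ((range (r + 1)).erase j) = Y.coeff j)

/-- B3-MAP. -/
def ST_MAP : Prop := ∀ (R S : Type) [CommRing R] [CommRing S] (φ : R →+* S) (r : ℕ) (Y : R[X])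
  (_ : Y.Monic) (K : Finset ℕ), φ (al r Y K) = al r (Y.map φ) K

/-- B3-FUN: `al (insert x U)` is a linear functional of `X^x` modulo `Y`, zero for `x ∈ U`. -/
def ST_FUN : Prop := ∀ (R : Type) [CommRing R] [CharP R 2] (r : ℕ) (Y : R[X]) (_ : Y.Monic)
  (_ : Y.natDegree = r) (U : Finset ℕ) (_ : U.card + 1 = r),
  ∃ ℓ : R[X] →ₗ[R] R, (∀ x, ℓ (X ^ x) = al r Y (insert x U)) ∧ (∀ x ∈ U, ℓ (X ^ x) = 0) ∧
    ∀ g, ℓ (Y * g) = 0

/-- B3-CLASS: too many exponents divisible by `q`. -/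
def ST_CLASS : Prop := ∀ (R : Type) [CommRing R] [CharP R 2] (r q : ℕ) (Y : R[X]) (_ : Y.Monic)
  (_ : Y.natDegree = r) (_ : 1 ≤ q) (_ : q ∣ r) (_ : ∀ i, ¬ q ∣ i → Y.coeff i = 0)
  (K : Finset ℕ) (_ : r / q < (K.filter (fun x => q ∣ x)).card), al r Y K = 0

/-! ## B4. The relations in `Q` -/

/-- B4-H. -/
def ST_H : Prop := ∀ (R Q : Type) [CommRing R] [CharP R 2] [CommRing Q] [CharP Q 2]
  (r D : ℕ) (f : R[X]) (Y : Q[X]), D < r → Y.Monic → Y.natDegree = r →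
  IsUnit (Y.coeff 0) → RelsL r D f → TB r f Y →
  ∀ j, 1 ≤ j → j < D → (X ^ (2 * r - 1 + j) %ₘ Y).coeff (r - 1) = 0

/-- B4-D: `h_{r+D} = e_r h_D`. -/
def ST_D : Prop := ∀ (R Q : Type) [CommRing R] [CharP R 2] [CommRing Q] [CharP Q 2]
  (r D : ℕ) (f : R[X]) (Y : Q[X]), 1 ≤ D → D < r → Y.Monic → Y.natDegree = r →
  IsUnit (Y.coeff 0) → RelsL r D f → TB r f Y →
  (X ^ (2 * r - 1 + D) %ₘ Y).coeff (r - 1) = Y.coeff 0 * (X ^ (r - 1 + D) %ₘ Y).coeff (r - 1)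

/-- B4-N. -/
def ST_N : Prop := ∀ (R Q : Type) [CommRing R] [CharP R 2] [CommRing Q] [CharP Q 2]
  (r D m a : ℕ) (f : R[X]) (Y : Q[X]), m + D = r → 2 ≤ D → 1 ≤ a → a ≤ m + 1 → 1 ≤ m →
  Y.Monic → Y.natDegree = r → RelsL r D f → TB r f Y →
  ∑ p ∈ range a, al r Y (kN1 r D m a p) * al r Y (lN1 r D m p)
    + ∑ p ∈ Icc 1 a, al r Y (kN2 r D m a p) * al r Y (lN2 D m p)
    + (if a = 1 then (Y.coeff 0) ^ (r + 1) else 0) = 0

/-! ## B5. Consequences -/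

/-- B5-ED (used over the field): `(N_1)`, `(D)` and `e_1 = .. = e_(D-1) = 0` give `e_D ≠ 0`. -/
def ST_ED : Prop := ∀ (K : Type) [Field K] [CharP K 2] (r D m : ℕ) (G : K[X]) (_ : G.Monic)
  (_ : G.natDegree = r) (_ : m + D = r) (_ : 2 ≤ D) (_ : 1 ≤ m) (_ : G.coeff 0 ≠ 0)
  (_ : ∀ i, 1 ≤ i → i < D → G.coeff (r - i) = 0)
  (_ : al r G (kN1 r D m 1 0) * al r G (lN1 r D m 0)
    + al r G (kN2 r D m 1 1) * al r G (lN2 D m 1) + (G.coeff 0) ^ (r + 1) = 0)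
  (_ : (X ^ (2 * r - 1 + D) %ₘ G).coeff (r - 1)
    = G.coeff 0 * (X ^ (r - 1 + D) %ₘ G).coeff (r - 1)), G.coeff (r - D) ≠ 0

/-- B5-QF: `(N_1)` for `Y ∈ Q[t^q]`, `D = q`. -/
def ST_QF : Prop := ∀ (Q : Type) [CommRing Q] [CharP Q 2] (r q m : ℕ) (Y : Q[X]),
  m + q = r → 2 ≤ q → q ∣ r → q < r → Y.Monic → Y.natDegree = r → IsUnit (Y.coeff 0) →
  (∀ i, ¬ q ∣ i → Y.coeff i = 0) →
  al r Y (kN1 r q m 1 0) * al r Y (lN1 r q m 0)
    + al r Y (kN2 r q m 1 1) * al r Y (lN2 q m 1) + (Y.coeff 0) ^ (r + 1) = 0 →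
  (Y.coeff 0) ^ 2 = Y.coeff q * (X ^ (2 * r) %ₘ Y).coeff m

/-- B5-QN: `(N_(q+1))` for `Y ∈ Q[t^q]`, `D = q`: the terms `p = 0` and `p = q` survive. -/
def ST_QN : Prop := ∀ (Q : Type) [CommRing Q] [CharP Q 2] (r q m : ℕ) (Y : Q[X]),
  m + q = r → 2 ≤ q → q ∣ r → q < r → Y.Monic → Y.natDegree = r → IsUnit (Y.coeff 0) →
  (∀ i, ¬ q ∣ i → Y.coeff i = 0) →
  (Y.coeff 0) ^ 2 = Y.coeff q * (X ^ (2 * r) %ₘ Y).coeff m →
  ∑ p ∈ range (q + 1), al r Y (kN1 r q m (q + 1) p) * al r Y (lN1 r q m p)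
    + ∑ p ∈ Icc 1 (q + 1), al r Y (kN2 r q m (q + 1) p) * al r Y (lN2 q m p) = 0 →
  (Y.coeff q) ^ 2 + Y.coeff (2 * q) * Y.coeff 0 = 0

/-! ## B6. Complete symmetric functions -/

/-- B6-LIN: residue identity `1/Y = Y/Y^2`. -/
def ST_LIN : Prop := ∀ (R : Type) [CommRing R] (r : ℕ) (Y : R[X]) (_ : Y.Monic)
  (_ : Y.natDegree = r) (_ : 1 ≤ r) (n : ℕ),
  (X ^ (2 * r - 1 + n) %ₘ Y).coeff (r - 1) = ∑ i ∈ range (r + 1), Y.coeff i * hh (Y ^ 2) (n + i)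

/-- B6-SQ. -/
def ST_SQ : Prop := ∀ (R : Type) [CommRing R] [CharP R 2] (F : R[X]) (_ : F.Monic) (n : ℕ),
  hh (F ^ 2) (2 * n) = hh F n ^ 2

/-! ## B7. Structure of `G` -/

/-- B7-STEP1. -/
def ST_STEP1 : Prop := ∀ (K : Type) [Field K] [CharP K 2] [IsAlgClosed K] (r D : ℕ) (G : K[X])
  (_ : G.Monic) (_ : G.natDegree = r) (_ : D ≤ r),
  (∀ n ∈ Sig G, ∀ j, 1 ≤ j → j < D → hh (G ^ 2) (n + j) = 0) →
  ∀ i, 1 ≤ i → i < D → G.coeff (r - i) = 0

/-- B7-STEP3. -/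
def ST_STEP3 : Prop := ∀ (K : Type) [Field K] [CharP K 2] [IsAlgClosed K] (r D : ℕ) (G : K[X])
  (_ : G.Monic) (_ : G.natDegree = r) (_ : 2 ≤ D) (_ : D < r),
  (∀ n ∈ Sig G, ∀ j, 1 ≤ j → j < D → hh (G ^ 2) (n + j) = 0) →
  (∀ i, 1 ≤ i → i < D → G.coeff (r - i) = 0) → G.coeff (r - D) ≠ 0 →
  (∃ a, D = 2 ^ a) ∧ ∀ i, G.coeff i ≠ 0 → D ∣ i

/-- B7-SIGD. -/
def ST_SIGD : Prop := ∀ (K : Type) [Field K] [CharP K 2] [IsAlgClosed K] (a : ℕ) (G : K[X])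
  (_ : G.Monic), (∀ i, G.coeff i ≠ 0 → 2 ^ a ∣ i) → ∀ n ∈ Sig G, 2 ^ a ∣ n

/-! ## B8. The core in characteristic 2 -/

/-- B8-CORE. -/
def ST_CORE : Prop := ∀ (K : Type) [Field K] [CharP K 2] [IsAlgClosed K] (r D : ℕ) (G : K[X])
  (_ : G.Monic) (_ : G.natDegree = r) (_ : G.coeff 0 ≠ 0) (_ : 2 ≤ D) (_ : D < r)
  (_ : RelsL r D (G ^ 2)), False

/-! ## B9. Case II -/

open Pool.Agent.Helper7.SN Pool.Agent.Helper73.SNC in
/-- B9-CASE2: `e_r(A) = e_(r+1)(A) = 0`, `A` not a coset, `|A| = 2 r`. -/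
def ST_CASE2 : Prop := ∀ (n : ℕ) [NeZero n] (A B : Finset (ZMod n)) (r : ℕ), 1 ≤ r →
  A.card = r + r → B.card = r + r → ∀ (a b : Fin (r + r) → ZMod n), Function.Injective a →
  Function.Injective b → univ.image a = A → univ.image b = B → ¬ IsCos (r + r) A →
  Pool.Agent.Helper73.SNC.es (fun i => chi (a i)) (r + 1) = 0 → Tr A B

end Pool.Agent.Helper95.CYCB
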